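import Pool.Agent.PLX.Ns
import Pool.Agent.NUS4.H1a
import Pool.Agent.PLX.R2.R2core
import Pool.Agent.PLX.NUSea.DispT

/-!
# The transports of a mode and all their kernels (plug-in of [4.7]), two densities `s a * P`
-/

set_option autoImplicit false
set_option linter.unusedSectionVars false

open MeasureTheory Set Filter Topology

namespace NUS4C.PLX

open NUS4 (O_of_BD O_deriv_of_BD)
open NUSea.PLX (ps ps' Hy c1 c1_pos ps_cont ps_mass ps_deriv ps_abs ps_zero ps_dif xi_O)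
open NUE NUOC NUKer NUR2 NUTr

noncomputable section

variable [NUSea.Sea]
variable {δ K : ℝ} {c : ℝ → ℝ}

/-- hypotheses of the transport for the displacement of a mode -/
theorem hy_cut (hP : Prof δ K c) (h : ℝ) : ∃ CF, 1 ≤ CF ∧ ∀ {N : ℕ} (R1 a s c0 : ℝ) (x : Fin N → ℝ),
    0 < s → 0 ≤ R1 → CF * ∑ j, |x j| ≤ c0 * (s * NUSea.P (R1 + 1)) →
    Hy 3 c0 s (CF * ∑ j, |x j|) (R1 + 1) (cutF c h R1 a x) (cutF' c h R1 a x) ∧
    Hy 3 c0 s (CF * ∑ j, |x j|) (R1 + 1) (fun t => - cutF c h R1 a x t)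
      (fun t => - cutF' c h R1 a x t) := by
  obtain ⟨C, hC⟩ := BD_cutF hP 4 h
  refine ⟨|C| + 1, by linarith [abs_nonneg C], ?_⟩
  intro N R1 a s c0 x hs hR1 hsm
  have hx0 : 0 ≤ ∑ j, |x j| := Finset.sum_nonneg fun j _ => abs_nonneg _
  have h1 : BD 4 ((|C| + 1) * ∑ j, |x j|) (cutF c h R1 a x) :=
    (hC R1 a x).mono (mul_le_mul_of_nonneg_right (by linarith [le_abs_self C]) hx0)
  have h2 : O 3 ((|C| + 1) * ∑ j, |x j|) (cutF' c h R1 a x) :=
    O_deriv_of_BD h1 (hasDerivAt_cutF hP a x)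
  refine ⟨⟨hs, by linarith, hasDerivAt_cutF hP a x, (O_of_BD 4 h1).le, h2, fun t ht => cutF_zero ht,
    hsm⟩, ⟨hs, by linarith, fun t => (hasDerivAt_cutF hP a x t).neg, fun t => ?_, h2.neg,
    fun t ht => ?_, hsm⟩⟩
  · rw [abs_neg]
    exact (O_of_BD 4 h1).le t
  · rw [cutF_zero ht, neg_zero]

lemma ps'_meas {j : ℕ} {c0 s M b : ℝ} {F F' : ℝ → ℝ} (h : Hy j c0 s M b F F') (hc : c0 ≤ c1) :
    Measurable (ps' s F F') := by
  have h1 : Measurable F' := h.od.cont.measurable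
  have h2 := (ps_cont h hc).measurable
  have h3 : Measurable NUSea.P := NUSea.P_cont.measurable
  unfold ps'
  fun_prop

/-- **all data of the transports of a mode**: densities `s a * P`, `s0 ≤ s a` -/
theorem geo (hP : Prof δ K c) (h : ℝ) : ∃ C cs : ℝ, 1 ≤ C ∧ 0 < cs ∧ ∀ {N : ℕ} (R R1 a s0 : ℝ)
    (s : Bool → ℝ)
    (x : Fin N → ℝ), 0 < s0 → (∀ d, s0 ≤ s d) → 0 ≤ R1 → R1 + 1 < R →
    C * ∑ j, |x j| ≤ cs * (s0 * NUSea.P (R1 + 1)) →
    Tr2 R (fun t => s true * NUSea.P t) (fun t => s false * NUSea.P t) (cutF' c h R1 a x)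
      (ps (s true) (cutF c h R1 a x))
      (ps' (s true) (cutF c h R1 a x) (cutF' c h R1 a x)) (ps (s false) fun t => - cutF c h R1 a x t)
      (ps' (s false) (fun t => - cutF c h R1 a x t) fun t => - cutF' c h R1 a x t) ∧
    (∀ t, |cutF' c h R1 a x t| ≤ C * ∑ j, |x j|) ∧
    O 4 (C * ((∑ j, |x j|) / (s0 * NUSea.P (R1 + 1)))) (fun t => ps (s true) (cutF c h R1 a x) t - t) ∧
    O 4 (C * ((∑ j, |x j|) / (s0 * NUSea.P (R1 + 1))))
      (fun t => ps (s false) (fun t => - cutF c h R1 a x t) t - t) ∧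
    (∀ t, HasDerivAt (fun t => ps (s true) (cutF c h R1 a x) t - t)
      (ps' (s true) (cutF c h R1 a x) (cutF' c h R1 a x) t - 1) t) ∧
    (∀ t, HasDerivAt (fun t => ps (s false) (fun t => - cutF c h R1 a x t) t - t)
      (ps' (s false) (fun t => - cutF c h R1 a x t) (fun t => - cutF' c h R1 a x t) t - 1) t) ∧
    (∀ t, R1 + 1 ≤ |t| → ps (s true) (cutF c h R1 a x) t - t = 0) ∧
    (∀ t, R1 + 1 ≤ |t| → ps (s false) (fun t => - cutF c h R1 a x t) t - t = 0) ∧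
    (∀ b t, R1 + 1 ≤ b → (|ps (s true) (cutF c h R1 a x) t| ≤ b ↔ |t| ≤ b)) ∧
    (∀ b t, R1 + 1 ≤ b → (|ps (s false) (fun t => - cutF c h R1 a x t) t| ≤ b ↔ |t| ≤ b)) := by
  obtain ⟨CF, hCF, HF⟩ := hy_cut hP h
  obtain ⟨Cx, c0, hCx, hc0, hcc, Hx⟩ := xi_O 3
  have hc1 := c1_pos
  refine ⟨Cx * CF, c0, by nlinarith, hc0, ?_⟩
  intro N R R1 a s0 s x hs0 hss hR1 hR hsm
  have hx0 : 0 ≤ ∑ j, |x j| := Finset.sum_nonneg fun j _ => abs_nonneg _
  have hCC : CF * ∑ j, |x j| ≤ Cx * CF * ∑ j, |x j| :=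
    mul_le_mul_of_nonneg_right (by nlinarith) hx0
  have hP0 := NUSea.P_pos (R1 + 1)
  have hs : ∀ d, 0 < s d := fun d => lt_of_lt_of_le hs0 (hss d)
  have hsd : ∀ d, CF * ∑ j, |x j| ≤ c0 * (s d * NUSea.P (R1 + 1)) := fun d => by
    refine (hCC.trans hsm).trans (mul_le_mul_of_nonneg_left ?_ hc0.le)
    exact mul_le_mul_of_nonneg_right (hss d) hP0.le
  obtain ⟨g1, -⟩ := HF R1 a (s true) c0 x (hs true) hR1 (hsd true)
  obtain ⟨-, g2⟩ := HF R1 a (s false) c0 x (hs false) hR1 (hsd false)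
  have hcc' : c0 ≤ c1 := by linarith
  have hmass := ps_mass g1
  have hmass2 := ps_mass g2
  have hl : ∀ d, Cx * (CF * (∑ j, |x j|) / (s d * NUSea.P (R1 + 1))) ≤
      Cx * CF * ((∑ j, |x j|) / (s0 * NUSea.P (R1 + 1))) := fun d => by
    have h1 : (∑ j, |x j|) / (s d * NUSea.P (R1 + 1)) ≤ (∑ j, |x j|) / (s0 * NUSea.P (R1 + 1)) :=
      div_le_div_of_nonneg_left hx0 (mul_pos hs0 hP0) (mul_le_mul_of_nonneg_right (hss d) hP0.le)
    calc Cx * (CF * (∑ j, |x j|) / (s d * NUSea.P (R1 + 1))) =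
          Cx * CF * ((∑ j, |x j|) / (s d * NUSea.P (R1 + 1))) := by ring
      _ ≤ _ := mul_le_mul_of_nonneg_left h1 (by positivity)
  have o1 := (Hx g1).mono (hl true)
  have o2 := (Hx g2).mono (hl false)
  have bρ : ∀ d, ∃ C, ∀ t, |s d * NUSea.P t| ≤ C := fun d => by
    obtain ⟨CP, hCP, hP1⟩ := NUSea.P_le
    refine ⟨s d * CP, fun t => ?_⟩
    rw [abs_mul, abs_of_pos (hs d), abs_of_pos (NUSea.P_pos t)]
    refine mul_le_mul_of_nonneg_left ((hP1 t).trans ?_) (hs d).le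
    refine mul_le_of_le_one_right (by positivity) (Real.exp_le_one_iff.2 ?_)
    have := abs_nonneg t
    linarith
  refine ⟨?_, ?_, o1, o2, fun t => (ps_deriv g1 hcc' t).sub (hasDerivAt_id t),
    fun t => (ps_deriv g2 hcc' t).sub (hasDerivAt_id t), fun t ht => ?_, fun t ht => ?_,
    fun b t hb => ps_abs g1 hcc hb t, fun b t hb => ps_abs g2 hcc hb t⟩
  · exact
      { R0 := by linarith
        cρ := continuous_const.mul NUSea.P_cont
        bρ := bρ true
        cσ := continuous_const.mul NUSea.P_cont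
        bσ := bρ false
        cF := g1.od.cont
        sF := fun t ht => g1.zero' (lt_of_lt_of_le hR ht)
        dX := ps_dif g1 hcc
        dY := ps_dif g2 hcc
        mX := ps'_meas g1 hcc'
        mY := ps'_meas g2 hcc'
        bX := ps_abs g1 hcc hR.le
        bY := ps_abs g2 hcc hR.le
        massX := fun t _ => hmass t
        massY := fun t _ => by
          have := hmass2 t
          simp only [← sub_eq_add_neg] at this
          exact this }
  · intro t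
    exact (g1.od.le t).trans hCC
  · rw [ps_zero g1 ht, sub_self]
  · rw [ps_zero g2 ht, sub_self]

end

end NUS4C.PLX
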