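import Pool.Agent.PLX.Ns
import Pool.Agent.NUS4.H1e
import Pool.Agent.PLX.NUS4C.H1c

/-!
# The numbers of the plug-in of [4.7] for large `m`

`L = log m`, grid radius `X = (1 - 2 e) (3/8) L`, `R1 = (1 - e) (3/8) L - 1`, `s ≥ m / 2`,
`R ≤ L ^ k`, `S ≤ L ^ k`, `lam`, `l1 ≤ m ^ (-κ)`: the error `er` is bounded.
-/

set_option autoImplicit false
set_option linter.unusedSectionVars false

open MeasureTheory Set Filter Topology

namespace NUS4C.PLX

open NUS4 (gN gM gp log_pow_small R1f Xf sum_abs_le small_part)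
open NUSea.PLX (ps ps' Hy c1 c1_pos ps_cont ps_mass ps_deriv ps_abs ps_zero ps_dif xi_O)
open NUE NUOC NUKer NUR2 NUTr

noncomputable section

variable [NUSea.Sea]

/-- the size of the displacement for large `m` -/
lemma sz_le {e : ℝ} (he1 : e ≤ 1) : ∃ Cz : ℝ, 1 ≤ Cz ∧ ∀ (m : ℕ), 1 ≤ m → ∀ (s A : ℝ),
    (m : ℝ) / 2 ≤ s → 0 ≤ A → A / (s * NUSea.P (R1f e m + 1)) ≤ Cz * A * (m : ℝ) ^ (-e) := by
  obtain ⟨c, hc, HP⟩ := NUSea.le_P
  have h0 : 0 ≤ 2 / c := by positivity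
  refine ⟨2 / c + 1, by linarith, ?_⟩
  intro m hm s A hs hA
  have hm1 : (1:ℝ) ≤ m := by exact_mod_cast hm
  have hm0 : (0:ℝ) < m := by linarith
  have hL : 0 ≤ Real.log m := Real.log_nonneg hm1
  have hb : R1f e m + 1 = (1 - e) * (3 / 8 * Real.log m) := by unfold R1f; ring
  have hb0 : 0 ≤ (1 - e) * (3 / 8 * Real.log m) := mul_nonneg (by linarith) (by positivity)
  rw [hb]
  have h1 := HP ((1 - e) * (3 / 8 * Real.log m))
  rw [abs_of_nonneg hb0] at h1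
  have h2 : Real.exp (-(8 / 3) * ((1 - e) * (3 / 8 * Real.log m))) = (m : ℝ) ^ (e - 1) := by
    rw [Real.rpow_def_of_pos hm0]
    congr 1
    ring
  rw [h2] at h1
  have h3 : 0 < (m : ℝ) ^ (e - 1) := Real.rpow_pos_of_pos hm0 _
  have hs0 : 0 ≤ s := by linarith
  have h4 : (m : ℝ) / 2 * (c * (m : ℝ) ^ (e - 1)) ≤
      s * NUSea.P ((1 - e) * (3 / 8 * Real.log m)) := by gcongr
  have h5 : (m : ℝ) / 2 * (c * (m : ℝ) ^ (e - 1)) = c / 2 * (m : ℝ) ^ e := by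
    have : (m : ℝ) * (m : ℝ) ^ (e - 1) = (m : ℝ) ^ e := by
      rw [Real.rpow_sub_one hm0.ne']
      field_simp
    rw [← this]
    ring
  rw [h5] at h4
  have h6 : 0 < c / 2 * (m : ℝ) ^ e := by positivity
  calc A / (s * NUSea.P ((1 - e) * (3 / 8 * Real.log m))) ≤ A / (c / 2 * (m : ℝ) ^ e) := by
        gcongr
    _ = 2 / c * A * (m : ℝ) ^ (-e) := by
        rw [Real.rpow_neg hm0.le]
        field_simp
    _ ≤ _ := by
        have h7 : 0 ≤ A * (m : ℝ) ^ (-e) := by positivity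
        nlinarith

/-- **the numbers** -/
theorem er_num (k : ℕ) {κ e h η C cs : ℝ} (hκ : 0 < κ) (he : 0 < e) (he1 : e ≤ 1 / 4) (hh : 0 < h)
    (hη : 0 < η) (hC : 1 ≤ C) (hcs : 0 < cs) : ∃ (m0 : ℕ) (e' : ℝ), 1 ≤ m0 ∧ 0 ≤ e' ∧
    ∀ m : ℕ, m0 ≤ m → ∀ (R s lam l1 S : ℝ), (m : ℝ) / 2 ≤ s → 0 ≤ R → R ≤ Real.log m ^ k → 0 ≤ lam →
    lam ≤ (m : ℝ) ^ (-κ) → 0 ≤ l1 → l1 ≤ (m : ℝ) ^ (-κ) → 0 ≤ S → S ≤ Real.log m ^ k →
    ∀ x : Fin (gN h (Xf e m)) → ℝ, ∑ i, x i ^ 2 ≤ (2 * ((gN h (Xf e m) : ℕ) : ℝ) + 4) / η →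
    0 ≤ Xf e m ∧ Xf e m < R1f e m ∧ sz s (R1f e m) x ≤ cs ∧ C * R ^ 7 * (lam + sz s (R1f e m) x) ≤ 1 ∧
    er C R (Xf e m) (R1f e m) lam l1 S s 2 x ≤ e' := by
  obtain ⟨CA, hCA, HA⟩ := sum_abs_le hh hη
  obtain ⟨Cz, hCz, HZ⟩ := sz_le (e := e) (by linarith)
  obtain ⟨κ', hκ'⟩ : ∃ κ', κ' = min κ e := ⟨_, rfl⟩
  have hκ0 : 0 < κ' := by rw [hκ']; exact lt_min hκ he
  obtain ⟨B, hB⟩ : ∃ B, B = C + CA + Cz * CA + 1 := ⟨_, rfl⟩
  have hzz : 0 ≤ Cz * CA := mul_nonneg (by linarith) (by linarith)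
  have hB1 : 1 ≤ B := by rw [hB]; linarith
  -- thresholds
  obtain ⟨m1, hm1⟩ := log_pow_small (15 * (k + 1)) hκ0 (60 * B ^ 15 * (1 + 1 / cs))
  obtain ⟨m2, hm2⟩ := (Real.tendsto_log_atTop.comp tendsto_natCast_atTop_atTop).eventually
    (eventually_ge_atTop (16 / (3 * e) + 1)) |>.exists_forall_of_atTop
  refine ⟨max 1 (max m1 m2), C * ((2 / e) ^ 6 * (32 / 9) ^ 2 * CA) ^ 2 + 1, le_max_left _ _,
    by positivity, ?_⟩
  intro m hm R s lam l1 S hs hR0 hR hlam0 hlam hl0 hl hS0 hS x hx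
  have hmm1 := hm1 m (le_trans (le_trans (le_max_left _ _) (le_max_right _ _)) hm)
  have hmm2 := hm2 m (le_trans (le_trans (le_max_right _ _) (le_max_right _ _)) hm)
  have hm0 : 1 ≤ m := le_trans (le_max_left _ _) hm
  have hmr : (1:ℝ) ≤ m := by exact_mod_cast hm0
  have hmp : (0:ℝ) < m := by linarith
  simp only [Function.comp] at hmm2
  obtain ⟨L, hL⟩ : ∃ L, L = Real.log m := ⟨_, rfl⟩
  rw [← hL] at hmm1 hmm2 hR hS
  have hLe : 16 / (3 * e) ≤ L := by linarith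
  have hLe' : 2 ≤ e * (3 / 8 * L) := by
    rw [div_le_iff₀ (by positivity)] at hLe
    linarith
  have hL1 : 1 ≤ L := by
    have : 0 ≤ 16 / (3 * e) := by positivity
    linarith
  have hX : Xf e m = (1 - 2 * e) * (3 / 8 * L) := by rw [hL]; rfl
  have hR1 : R1f e m = (1 - e) * (3 / 8 * L) - 1 := by rw [hL]; rfl
  have hX0 : 0 ≤ Xf e m := by rw [hX]; exact mul_nonneg (by linarith) (by positivity)
  have heL0 : 0 ≤ e * L := mul_nonneg he.le (by linarith)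
  have heL : e * L ≤ 1 / 4 * L := mul_le_mul_of_nonneg_right he1 (by linarith)
  have hXL : Xf e m ≤ L := by
    rw [hX]
    have h1 : (1 - 2 * e) * (3 / 8 * L) = 3 / 8 * L - 3 / 4 * (e * L) := by ring
    rw [h1]
    linarith
  have hA := HA (Xf e m) L hX0 hXL hL1 x hx
  obtain ⟨A, hAd⟩ : ∃ A, A = ∑ i, |x i| := ⟨_, rfl⟩
  rw [← hAd] at hA
  have hA0 : 0 ≤ A := by rw [hAd]; exact Finset.sum_nonneg fun i _ => abs_nonneg _
  have hz := HZ m hm0 s A hs hA0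
  obtain ⟨v, hv⟩ : ∃ v, v = (m : ℝ) ^ (-κ') := ⟨_, rfl⟩
  have hv0 : 0 < v := by rw [hv]; exact Real.rpow_pos_of_pos hmp _
  have hvκ : (m : ℝ) ^ (-κ) ≤ v := by
    rw [hv]
    exact Real.rpow_le_rpow_of_exponent_le hmr (by rw [hκ']; linarith [min_le_left κ e])
  have hve : (m : ℝ) ^ (-e) ≤ v := by
    rw [hv]
    exact Real.rpow_le_rpow_of_exponent_le hmr (by rw [hκ']; linarith [min_le_right κ e])
  rw [← hv] at hmm1
  obtain ⟨z, hzd⟩ : ∃ z, z = sz s (R1f e m) x := ⟨_, rfl⟩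
  have hzA : z = A / (s * NUSea.P (R1f e m + 1)) := by rw [hzd, hAd]; rfl
  have hs0 : 0 < s := by linarith
  have hz0 : 0 ≤ z := by
    rw [hzA]
    have := NUSea.P_pos (R1f e m + 1)
    positivity
  rw [← hzA] at hz
  obtain ⟨Q, hQ⟩ : ∃ Q, Q = B * L ^ (k + 1) := ⟨_, rfl⟩
  have hLk : 1 ≤ L ^ k := one_le_pow₀ hL1
  have hLk1 : 1 ≤ L ^ (k + 1) := one_le_pow₀ hL1
  have hLkk : L ^ k ≤ L ^ (k + 1) := pow_le_pow_right₀ hL1 (by omega)
  have hLL : L ≤ L ^ (k + 1) := by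
    calc L = L ^ 1 := (pow_one L).symm
      _ ≤ _ := pow_le_pow_right₀ hL1 (by omega)
  have hQ1 : 1 ≤ Q := by rw [hQ]; exact one_le_mul_of_one_le_of_one_le hB1 hLk1
  have hBQ : B ≤ Q := by rw [hQ]; exact le_mul_of_one_le_right (by linarith) hLk1
  have hCQ : C ≤ Q := by
    refine le_trans ?_ hBQ
    rw [hB]
    linarith
  have hLQ : L ^ (k + 1) ≤ Q := by rw [hQ]; exact le_mul_of_one_le_left (by linarith) hB1
  have hAQ : A ≤ Q := by
    refine hA.trans ?_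
    rw [hQ]
    have h1 : CA ≤ B := by rw [hB]; linarith
    exact mul_le_mul h1 hLL (by linarith) (by linarith)
  have hzQ : z ≤ Q * v := by
    refine hz.trans ?_
    have h1 : Cz * CA ≤ B := by rw [hB]; linarith
    have h2 : Cz * A ≤ Cz * (CA * L) := mul_le_mul_of_nonneg_left hA (by linarith)
    have h3 : Cz * A ≤ B * L ^ (k + 1) := by
      refine h2.trans ?_
      rw [← mul_assoc]
      exact mul_le_mul h1 hLL (by linarith) (by linarith)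
    rw [← hQ] at h3
    exact mul_le_mul h3 hve (Real.rpow_nonneg hmp.le _) (by linarith)
  have hlamQ : lam ≤ Q * v := hlam.trans (hvκ.trans (le_mul_of_one_le_left hv0.le hQ1))
  have hlQ : l1 ≤ Q * v := hl.trans (hvκ.trans (le_mul_of_one_le_left hv0.le hQ1))
  obtain ⟨p1, p2⟩ := small_part hQ1 hv0.le (by linarith) hCQ hR0 (hR.trans (hLkk.trans hLQ)) hA0 hAQ
    hlam0 hlamQ hz0 hzQ hl0 hlQ hS0 (hS.trans (hLkk.trans hLQ))
  have hQ15 : 60 * Q ^ 15 * v * (1 + 1 / cs) ≤ 1 := by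
    refine le_trans (le_of_eq ?_) hmm1
    rw [hQ, mul_pow, ← pow_mul]
    ring
  have hQp : 0 ≤ 60 * Q ^ 15 * v := by positivity
  have hcs' : 0 < 1 / cs := by positivity
  have hQle : 60 * Q ^ 15 * v ≤ 1 := le_trans (le_mul_of_one_le_right hQp (by linarith)) hQ15
  have hQcs : 60 * Q ^ 15 * v ≤ cs := by
    have h1 : 60 * Q ^ 15 * v * (1 / cs) ≤ 1 :=
      le_trans (mul_le_mul_of_nonneg_left (by linarith) hQp) hQ15
    rw [mul_one_div, div_le_one hcs] at h1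
    exact h1
  rw [← hzd]
  refine ⟨hX0, ?_, ?_, p1.trans hQle, ?_⟩
  · rw [hX, hR1]
    have h1 : (1 - 2 * e) * (3 / 8 * L) = (1 - e) * (3 / 8 * L) - e * (3 / 8 * L) := by ring
    rw [h1]
    linarith
  · refine hzQ.trans (le_trans ?_ hQcs)
    have h1 : Q ≤ Q ^ 15 := by
      calc Q = Q ^ 1 := (pow_one Q).symm
        _ ≤ _ := pow_le_pow_right₀ hQ1 (by norm_num)
    have h2 : 0 ≤ Q ^ 15 * v := by positivity
    have h3 : Q * v ≤ Q ^ 15 * v := mul_le_mul_of_nonneg_right h1 hv0.le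
    have h4 : 60 * Q ^ 15 * v = 60 * (Q ^ 15 * v) := by ring
    rw [h4]
    linarith
  · have h1 : C * ((R1f e m / (R1f e m - Xf e m)) ^ (2 + 4) * ((1 + R1f e m) ^ 2)⁻¹ * ∑ j, |x j|) ^ 2 ≤
        C * ((2 / e) ^ 6 * (32 / 9) ^ 2 * CA) ^ 2 := by
      rw [← hAd]
      have q1 : R1f e m = 3 / 8 * L - 3 / 8 * (e * L) - 1 := by rw [hR1]; ring
      have q2 : Xf e m = 3 / 8 * L - 3 / 4 * (e * L) := by rw [hX]; ring
      have q3 : 2 ≤ 3 / 8 * (e * L) := by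
        have h3 : e * (3 / 8 * L) = 3 / 8 * (e * L) := by ring
        rw [← h3]
        exact hLe'
      have r1 : 0 ≤ R1f e m := by rw [q1]; linarith
      have r2 : e * (3 / 16 * L) ≤ R1f e m - Xf e m := by
        have h3 : e * (3 / 16 * L) = 3 / 16 * (e * L) := by ring
        rw [h3, q1, q2]
        linarith
      have r3 : R1f e m / (R1f e m - Xf e m) ≤ 2 / e := by
        have h3 : 0 < R1f e m - Xf e m := lt_of_lt_of_le (by positivity) r2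
        rw [div_le_div_iff₀ h3 he]
        have h4 : R1f e m ≤ 3 / 8 * L := by rw [q1]; linarith
        have h5 : R1f e m * e ≤ 3 / 8 * L * e := mul_le_mul_of_nonneg_right h4 he.le
        have h6 : 3 / 8 * L * e = 2 * (e * (3 / 16 * L)) := by ring
        rw [h6] at h5
        exact h5.trans (mul_le_mul_of_nonneg_left r2 (by norm_num))
      have r4 : 9 / 32 * L ≤ 1 + R1f e m := by rw [q1]; linarith
      have r5 : ((1 + R1f e m) ^ 2)⁻¹ ≤ (32 / 9) ^ 2 * (L ^ 2)⁻¹ := by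
        have h5 : (9 / 32 * L) ^ 2 ≤ (1 + R1f e m) ^ 2 := by gcongr
        calc ((1 + R1f e m) ^ 2)⁻¹ ≤ ((9 / 32 * L) ^ 2)⁻¹ := by gcongr
          _ = _ := by
            rw [mul_pow, mul_inv]
            norm_num
      have r6 : 0 ≤ R1f e m / (R1f e m - Xf e m) := by
        have h3 : 0 < R1f e m - Xf e m := lt_of_lt_of_le (by positivity) r2
        positivity
      have r7 : (R1f e m / (R1f e m - Xf e m)) ^ (2 + 4) * ((1 + R1f e m) ^ 2)⁻¹ * A ≤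
          (2 / e) ^ 6 * (32 / 9) ^ 2 * CA := by
        calc (R1f e m / (R1f e m - Xf e m)) ^ (2 + 4) * ((1 + R1f e m) ^ 2)⁻¹ * A ≤
            (2 / e) ^ 6 * ((32 / 9) ^ 2 * (L ^ 2)⁻¹) * (CA * L) := by gcongr
          _ = (2 / e) ^ 6 * (32 / 9) ^ 2 * CA * L⁻¹ := by
            field_simp
          _ ≤ (2 / e) ^ 6 * (32 / 9) ^ 2 * CA * 1 := by
            gcongr
            exact inv_le_one_of_one_le₀ hL1
          _ = _ := mul_one _
      gcongr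
    have hE : er C R (Xf e m) (R1f e m) lam l1 S s 2 x =
        C * ((R1f e m / (R1f e m - Xf e m)) ^ (2 + 4) * ((1 + R1f e m) ^ 2)⁻¹ * ∑ j, |x j|) ^ 2 +
        (2 * S * (l1 + C * R ^ 3 * A * z + 2 * (C * R ^ 7 * (lam + z)) * (2 * R * (C * A))) +
      4 * S * (C * R ^ 7 * (lam + z)) +
      2 * (l1 + C * R ^ 3 * A * z) * (2 * R * (C * A)) +
      2 * (C * R ^ 7 * (lam + z)) * (2 * R * (C * A)) ^ 2) := by
      rw [hzd, hAd]
      rfl
    rw [hE]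
    exact add_le_add h1 (p2.trans hQle)

end

end NUS4C.PLX
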