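import Pool.Agent.PLX.Ns
import Pool.Agent.PLX.NUS4C.H1g
import Pool.Agent.PLX.R2.Fin
import Pool.Agent.NUS4.H1g

/-!
# The sharp bound of the positive gas: `fin` with (H1) inserted
-/

set_option autoImplicit false
set_option linter.unusedSectionVars false

open MeasureTheory Set Filter Topology

namespace NUS4C.PLX

open NUS4 (gN gM gp R1f Xf mG Wt Fi off mG_eq H1 gLa ccτ fin2 Wt_meas)
open NUE NUOC NUKer NUR2 NUTr NUDi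
open scoped ENNReal

noncomputable section

variable [NUSea.Sea]

/-- curve and one body data of the gas in the bulk -/
structure GD (m : ℕ) (k : ℕ) (κ e w : ℝ) (s : Bool → ℝ) (R b : ℝ) (ηX ηX1 ηY ηY1 aX aY : ℝ → ℝ) :
    Prop where
  s1 : ∀ d, (m : ℝ) / 2 ≤ s d
  s2 : ∀ d, s d ≤ (m : ℝ) ^ 2
  R1 : Real.log m ≤ R
  R2 : R ≤ 2 * Real.log m ^ 2
  b1 : R1f e m + 1 ≤ b
  b2 : b + 3 ≤ R
  cX : ∃ (ε M : ℝ) (eX : ℝ → ℝ), NUSea.PLX.Cur (s true) ε M b eX ηX ∧ ε ≤ (m : ℝ) ^ (-κ) ∧ M ≤ Real.log m ^ k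
  cY : ∃ (ε M : ℝ) (eY : ℝ → ℝ), NUSea.PLX.Cur (s false) ε M b eY ηY ∧ ε ≤ (m : ℝ) ^ (-κ) ∧ M ≤ Real.log m ^ k
  dX : ∀ t, HasDerivAt ηX (ηX1 t) t
  dY : ∀ t, HasDerivAt ηY (ηY1 t) t
  aX0 : ∀ x, 0 ≤ aX x
  aY0 : ∀ x, 0 ≤ aY x
  aXm : Measurable aX
  aYm : Measurable aY
  fX : ∃ (A Ar : ℝ) (F : ℂ → ℂ) (Er : ℝ → ℝ), 0 ≤ A ∧ A ≤ Real.log m ^ k ∧ Ar ≤ Real.log m ^ k ∧
    (∀ z : ℂ, |z.re| ≤ b + 2 → |z.im| < w → DifferentiableAt ℂ F z ∧ ‖F z‖ ≤ A) ∧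
    NUR2.Ext 4 b Ar Er ∧ ∀ x, |x| ≤ b → aX x = Real.exp ((NUSea.PLX.vb s true (NUAct.zt (iD ηX) x)).re +
      (F (NUAct.zt (iD ηX) x)).re + Er x)
  fY : ∃ (A Ar : ℝ) (F : ℂ → ℂ) (Er : ℝ → ℝ), 0 ≤ A ∧ A ≤ Real.log m ^ k ∧ Ar ≤ Real.log m ^ k ∧
    (∀ z : ℂ, |z.re| ≤ b + 2 → |z.im| < w → DifferentiableAt ℂ F z ∧ ‖F z‖ ≤ A) ∧
    NUR2.Ext 4 b Ar Er ∧ ∀ x, |x| ≤ b → aY x = Real.exp ((NUSea.PLX.vb s false (NUAct.zt (iD ηY) x)).re +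
      (F (NUAct.zt (iD ηY) x)).re + Er x)

lemma cur_mono {s ε M b ε' M' : ℝ} {e η : ℝ → ℝ} (h : NUSea.PLX.Cur s ε M b e η) (h1 : ε ≤ ε')
    (h2 : M ≤ M') : NUSea.PLX.Cur s ε' M' b e η :=
  ⟨h.oc, fun t => (h.le t).trans h1, fun t => (h.mass t).trans h2, h.supp⟩

variable {δ K : ℝ} {c : ℝ → ℝ}

/-- **(H1) for the data `GD`** -/
theorem h1_gd (hP : Prof δ K c) {h : ℝ} (hh : 0 < h) (hK : K * h < Real.pi) (k : ℕ) {κ e η w : ℝ}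
    (hκ : 0 < κ) (he : 0 < e) (he1 : e ≤ 1 / 4) (hη : 0 < η) (hw : 0 < w) (hw1 : w ≤ 1 / 10)
    {C₄ : ℝ} (hC4 : 0 ≤ C₄) : ∃ (m0 : ℕ) (e' : ℝ), 3 ≤ m0 ∧ 0 ≤ e' ∧
    ∀ m : ℕ, m0 ≤ m → ∀ {p n : ℕ} (s : Bool → ℝ) (R b : ℝ) (ηX ηX1 ηY ηY1 aX aY : ℝ → ℝ),
    GD m k κ e w s R b ηX ηX1 ηY ηY1 aX aY →
    IsFiniteMeasure (mWin R (Wt (p := p) (n := n) ηX ηX1 ηY ηY1 aX aY)) →
    RigB2 (mWin R (Wt (p := p) (n := n) ηX ηX1 ηY ηY1 aX aY)) R (fun t => s true * NUSea.P t)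
      (fun t => s false * NUSea.P t) (C₄ * Real.log m ^ 8) →
    ∀ cc : Fin (gN h (Xf e m)) → ℝ, ∃ l : (Fin (gN h (Xf e m)) → ℝ) → ℝ, (∀ g, l (-g) = - l g) ∧
      H1 c h η (Xf e m) R e' l cc (Wt (p := p) (n := n) ηX ηX1 ηY ηY1 aX aY) := by
  obtain ⟨m1, e', hm1, he', HF⟩ := h1_full hP hh hK (k + 9) hκ he he1 hη hw hw1
  obtain ⟨m2, hm2⟩ := (Real.tendsto_log_atTop.comp tendsto_natCast_atTop_atTop).eventually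
    (eventually_ge_atTop (2 + C₄)) |>.exists_forall_of_atTop
  refine ⟨max 3 (max m1 m2), e', le_max_left _ _, he', ?_⟩
  intro m hm p n s R b ηX ηX1 ηY ηY1 aX aY D hfin hrig cc
  have hmm2 := hm2 m (le_trans (le_trans (le_max_right _ _) (le_max_right _ _)) hm)
  simp only [Function.comp] at hmm2
  obtain ⟨L, hL⟩ : ∃ L, L = Real.log m := ⟨_, rfl⟩
  rw [← hL] at hmm2
  have hL1 : 1 ≤ L := by linarith
  have hLk : L ^ k ≤ L ^ (k + 9) := pow_le_pow_right₀ hL1 (by omega)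
  have hL3 : 2 * L ^ 2 ≤ L ^ (k + 9) := by
    calc 2 * L ^ 2 ≤ L * L ^ 2 := by gcongr; linarith
      _ = L ^ 3 := by ring
      _ ≤ L ^ (k + 9) := pow_le_pow_right₀ hL1 (by omega)
  have hL9 : C₄ * L ^ 8 ≤ L ^ (k + 9) := by
    calc C₄ * L ^ 8 ≤ L * L ^ 8 := by gcongr; linarith
      _ = L ^ 9 := by ring
      _ ≤ L ^ (k + 9) := pow_le_pow_right₀ hL1 (by omega)
  obtain ⟨s1, s2, R1, R2, b1, b2, ⟨εX, MX, eX, cX, cX1, cX2⟩, ⟨εY, MY, eY, cY, cY1, cY2⟩, dX, dY, aX0,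
    aY0, aXm, aYm, ⟨AX, ArX, FX, ErX, hAX0, hAX, hArX, hFX, hEX, haX⟩,
    ⟨AY, ArY, FY, ErY, hAY0, hAY, hArY, hFY, hEY, haY⟩⟩ := D
  rw [← hL] at cX2 cY2 hAX hArX hAY hArY R2
  have cX' := cur_mono cX (le_max_left εX εY) (le_max_left MX MY)
  have cY' := cur_mono cY (le_max_right εX εY) (le_max_right MX MY)
  have hL' : Real.log m = L := hL.symm
  refine HF m (le_trans (le_trans (le_max_left _ _) (le_max_right _ _)) hm) (p := p) (n := n) s R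
    (max εX εY) (max MX MY) b (max AX AY) (max ArX ArY) (C₄ * Real.log m ^ 8) eX eY ηX ηX1 ηY ηY1
    ErX ErY aX aY FX FY s1 s2 R1 ?_ b1 b2 cX' cY' dX dY (max_le cX1 cY1) ?_ (le_max_of_le_left hAX0) ?_
    ?_ (fun z h1 h2 => ⟨(hFX z h1 h2).1, (hFX z h1 h2).2.trans (le_max_left _ _)⟩)
    (fun z h1 h2 => ⟨(hFY z h1 h2).1, (hFY z h1 h2).2.trans (le_max_right _ _)⟩)
    (hEX.mono (le_max_left _ _)) (hEY.mono (le_max_right _ _)) aX0 aY0 aXm aYm haX haY ?_ ?_ ?_ ?_ cc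
  · rw [hL']
    exact R2.trans hL3
  · rw [hL']
    exact (max_le cX2 cY2).trans hLk
  · rw [hL']
    exact (max_le hAX hAY).trans hLk
  · rw [hL']
    exact (max_le hArX hArY).trans hLk
  · positivity
  · rw [hL']
    exact hL9
  · rw [mG_eq]
    exact hfin
  · rw [mG_eq]
    exact hrig

/-- **the sharp bound of the positive gas** -/
theorem sharp {ε : ℝ} (hε : 0 < ε) (hε1 : ε ≤ 1) : ∃ (δ K : ℝ) (c : ℝ → ℝ), 0 < δ ∧ δ < K ∧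
    ContDiff ℝ ((⊤ : ℕ∞) : WithTop ℕ∞) c ∧ (∀ k, 0 ≤ c k) ∧ (∀ k, c (-k) = c k) ∧ (∀ k, |k| ≤ δ → c k = 0) ∧
    (∀ k, K ≤ |k| → c k = 0) ∧ (∀ k, k ≠ 0 → c k ^ 2 ≤ NUMF.Lh k) ∧
    ∀ h : ℝ, 0 < h → K * h < Real.pi → ∀ {C₁ C₂ C₃ : ℝ}, 0 < C₁ → 0 ≤ C₂ → 0 ≤ C₃ →
      ∀ (k : ℕ) {κ e w : ℝ}, 0 < κ → 0 < e → e ≤ 1 / 4 → 0 < w → w ≤ 1 / 10 →
      ∃ (C : ℝ) (m0 : ℕ), 1 ≤ C ∧ 3 ≤ m0 ∧ ∀ m : ℕ, m0 ≤ m →
      ∀ {p n : ℕ} (s : Bool → ℝ) (R b A a M : ℝ) (τ ηX ηX1 ηY ηY1 aX aY : ℝ → ℝ),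
        GD m k κ e w s R b ηX ηX1 ηY ηY1 aX aY → 0 ≤ M → M ≤ C₂ * Real.log m ^ 6 → 0 ≤ A → 1 / 2 ≤ a →
        ∫⁻ x, Wt (p := p) (n := n) ηX ηX1 ηY ηY1 aX aY x * ENNReal.ofReal (Real.exp (1 / 2 *
          ∑ i ∈ gLa h (Xf e m), NU42.Fst c h (-(h * gM h (Xf e m))) τ i x.1 x.2 ^ 2)) ≤
          ENNReal.ofReal (A * (m : ℝ) ^ a) →
        ∫⁻ x in (Bx R)ᶜ, Wt (p := p) (n := n) ηX ηX1 ηY ηY1 aX aY x ≤ ENNReal.ofReal A →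
        SqW2 (Wt (p := p) (n := n) ηX ηX1 ηY ηY1 aX aY) R (fun t => s true * NUSea.P t)
          (fun t => s false * NUSea.P t)
          (ENNReal.ofReal (A * (m : ℝ) ^ a * Real.exp C₃)) (1 / (8 * (C₁ * (R + 1)))) (1 + M) →
        ∫⁻ x, Wt (p := p) (n := n) ηX ηX1 ηY ηY1 aX aY x ≤
          ENNReal.ofReal (C * A * (m : ℝ) ^ (a - 1 / 2 + (ε + e))) := by
  obtain ⟨δ, K, η, c, hδ, hK, hη, hc1, hc2, hc3, hc4, hc5, hc6, hc7, hc8, hc9⟩ := fin2 hε hε1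
  refine ⟨δ, K, c, hδ, hK, hc1, hc2, hc3, hc4, hc5, hc6, ?_⟩
  intro h hh hKh C₁ C₂ C₃ h1 h2 h3 k κ e w hκ he he1 hw hw1
  obtain ⟨C₀, C₄, hC0, hC4, hC⟩ := hc9 h hh hKh h1 h2 h3
  have hP : Prof δ K c := ⟨hδ, hc1, hc3, hc4, hc5⟩
  obtain ⟨m0, e', hm0, he', HD⟩ := h1_gd hP hh hKh k hκ he he1 hη hw hw1 (C₄ := C₄) (by linarith)
  have he'1 : 1 ≤ Real.exp e' := Real.one_le_exp he'
  refine ⟨C₀ * Real.exp e' + 1, m0, by nlinarith [Real.exp_pos e'], hm0, ?_⟩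
  intro m hm p n s R b A a M τ ηX ηX1 ηY ηY1 aX aY D hM hM2 hA ha hup htail hsq
  have hWm : Measurable (Wt (p := p) (n := n) ηX ηX1 ηY ηY1 aX aY) := by
    obtain ⟨εX, MX, eX, cX, -⟩ := D.cX
    obtain ⟨εY, MY, eY, cY, -⟩ := D.cY
    have mη : ∀ {u : ℝ → ℝ} {u1 : ℝ → ℝ} {lam : ℝ}, O 4 lam u → (∀ t, HasDerivAt u (u1 t) t) →
        Measurable u1 := by
      intro u u1 lam h1 h2
      obtain ⟨-, u2, h3, h4⟩ := h1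
      have e1 : u2 = u1 := funext fun t => (h3 t).unique (h2 t)
      rw [← e1]
      exact h4.cont.measurable
    exact Wt_meas cX.O4.cont.measurable (mη cX.O4 D.dX) cY.O4.cont.measurable (mη cY.O4 D.dY) D.aXm D.aYm
  have hR0 : 0 ≤ R := by
    have h1 : (1:ℝ) ≤ m := by exact_mod_cast (by omega : 1 ≤ m)
    exact (Real.log_nonneg h1).trans D.R1
  have hρ : ∀ d, Continuous fun t => s d * NUSea.P t := fun d => continuous_const.mul NUSea.P_cont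
  by_cases hr : IsFiniteMeasure (mWin R (Wt (p := p) (n := n) ηX ηX1 ηY ηY1 aX aY)) ∧
      RigB2 (mWin R (Wt (p := p) (n := n) ηX ηX1 ηY ηY1 aX aY)) R (fun t => s true * NUSea.P t)
        (fun t => s false * NUSea.P t) (C₄ * Real.log m ^ 8)
  · obtain ⟨l, hl, hl2⟩ := HD m hm (p := p) (n := n) s R b ηX ηX1 ηY ηY1 aX aY D hr.1 hr.2
      (ccτ c h (Xf e m) τ)
    exact hC e he.le (by linarith) m (hm0.trans hm) _ R (Xf e m) A a e' M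
      (fun t => s true * NUSea.P t) (fun t => s false * NUSea.P t) τ l
      rfl hWm hR0 D.R2 (hρ true) (hρ false) hM hM2 hl hA he' ha hup htail hsq fun _ _ => hl2
  · exact hC e he.le (by linarith) m (hm0.trans hm) _ R (Xf e m) A a e' M
      (fun t => s true * NUSea.P t) (fun t => s false * NUSea.P t) τ
      (fun _ => 0) rfl hWm hR0 D.R2 (hρ true) (hρ false) hM hM2 (fun g => by simp) hA he' ha hup htail hsq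
      fun q1 q2 => absurd ⟨q1, q2⟩ hr

end

end NUS4C.PLX
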