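import Pool.Agent.PLX.Ns
import Pool.Agent.PLX.NUS4C.Sharp
import Pool.Agent.PLX.NUSea.H0.H0fin

/-!
# The sharp bound for the data of `H0`: `H0fin` and `sharp`

`sharpD`: the total weight is at most `C p! n! exp (E1 + ..) (1 + shF) m ^ (- 1/2 + ε + e)`.
-/

set_option autoImplicit false
set_option linter.unusedSectionVars false

open MeasureTheory Set Filter Topology

namespace NUS4C.PLX

open NUS4 (gN gM gp R1f Xf mG Wt Fi off gLa)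
open NUSea.PLX.H0 (Hyp1 Shl Ex1 W0 tC H0fin Ex1_le tf)
open NUH0 (Grid shF shF_nonneg)
open NUE NUOC NUKer NUR2 NUTr NUDi
open scoped ENNReal

noncomputable section

variable [NUSea.Sea]

/-- the curve of the data -/
structure Crv (X : NUSea.PLX.H0.Dat) (ηX ηX1 ηY ηY1 : ℝ → ℝ) : Prop where
  dX : X.D true = iD ηX
  dX1 : X.D1 true = iD ηX1
  dY : X.D false = iD ηY
  dY1 : X.D1 false = iD ηY1

/-- **the sharp bound for the data of `H0`** -/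
theorem sharpD {ε ε' : ℝ} (hε : 0 < ε) (hε1 : ε ≤ 1) (hε' : 0 < ε') (k : ℝ) :
    ∃ C N : ℝ, 0 ≤ C ∧ 1 ≤ N ∧ ∀ {C₂ : ℝ}, 0 ≤ C₂ →
    ∀ (kk : ℕ) {κ e w : ℝ}, 0 < κ → 0 < e → e ≤ 1 / 4 → 0 < w → w ≤ 1 / 10 →
    ∃ (C' : ℝ) (m0 : ℕ), 1 ≤ C' ∧ 3 ≤ m0 ∧ ∀ m : ℕ, m0 ≤ m →
    ∀ {X : NUSea.PLX.H0.Dat} {p n : ℕ} {T0 Rw ε1 c1 m2 : ℝ}, Hyp1 X p n k m T0 Rw N ε1 c1 m2 →
    ∀ {aX aY cf B ηX ηX1 ηY ηY1 : ℝ → ℝ} {D q b : ℝ}, Shl X aX aY cf B D q →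
    Crv X ηX ηX1 ηY ηY1 →
    GD m kk κ e w X.s Rw b ηX ηX1 ηY ηY1 (fun t => aX t * cf t) (fun t => aY t * cf t) →
    m2 ^ 2 + (tC * k) ^ 2 ≤ C₂ * Real.log m ^ 6 →
    ∀ {E1 g : ℝ}, 0 ≤ g → g < q → (∀ T, T0 ≤ T → Ex1 X p n ε' C T ε1 ≤ E1 + g * (T - T0)) →
    Real.log m / 2 ≤ (q - g) * (Rw - T0) →
    ∫⁻ x, ENNReal.ofReal (W0 X p n aX aY cf x) ≤ ENNReal.ofReal (C' * ((p.factorial : ℝ) * n.factorial *
      Real.exp (E1 + 176 * c1 * (Rw + N) * m2 ^ 2) * (1 + shF D q g T0)) *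
      (m : ℝ) ^ (-(1 / 2 : ℝ) + (ε + e))) := by
  obtain ⟨C, N, C₁, hC, hN, hC₁, H0⟩ := H0fin hε' k
  obtain ⟨δ, K, ch, hδ, hK, hc1, hc2, hc3, hc4, hc5, hc6, HS⟩ := sharp hε hε1
  have hKp : 0 < K := hδ.trans hK
  obtain ⟨h, hh⟩ : ∃ h : ℝ, h = 3 / K := ⟨_, rfl⟩
  have hh0 : 0 < h := by rw [hh]; positivity
  have hKh : K * h < Real.pi := by
    rw [hh, mul_div_cancel₀ _ hKp.ne']
    exact Real.pi_gt_three
  refine ⟨C, N, hC, hN, ?_⟩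
  intro C₂ hC₂ kk κ e w hκ he he1 hw hw1
  obtain ⟨C', m0, hC', hm0, HM⟩ := HS h hh0 hKh hC₁ hC₂ le_rfl kk hκ he he1 hw hw1
  refine ⟨C', m0, hC', hm0, ?_⟩
  intro m hm X p n T0 Rw ε1 c1 m2 hH aX aY cf B ηX ηX1 ηY ηY1 D q b hS hcr hG hm2 E1 g hg0 hg hEx htail
  obtain ⟨i1, i2, i3⟩ := H0 hH hS hg0 hg hEx
  have hmp : (0:ℝ) < m := by
    have : 0 < m := by omega
    exact_mod_cast this
  have hgr : Grid ch K h :=
    ⟨hc1.continuous, hc3, hh0, hKh, fun k hk => hc5 k hk.le, fun k hk => hc6 k hk.ne'⟩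
  obtain ⟨Y, hY⟩ : ∃ Y, Y = (p.factorial : ℝ) * n.factorial *
      Real.exp (E1 + 176 * c1 * (Rw + N) * m2 ^ 2) * (1 + shF D q g T0) := ⟨_, rfl⟩
  have hsh := shF_nonneg (T0 := T0) hS.D0 hg
  have hY0 : 0 ≤ Y := by rw [hY]; positivity
  have hc10 := hH.c0
  have hRN : 0 ≤ Rw + N := by
    have := hH.T0p
    have := hH.T0R
    linarith
  have hmm : (m : ℝ) ^ (-(1 / 2 : ℝ)) * (m : ℝ) ^ (1 / 2 : ℝ) = 1 := by
    rw [← Real.rpow_add hmp]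
    norm_num
  have hWt : ∀ x : Cfg p n, Wt ηX ηX1 ηY ηY1 (fun t => aX t * cf t) (fun t => aY t * cf t) x =
      ENNReal.ofReal (W0 X p n aX aY cf x) := by
    intro x
    unfold W0
    rw [hcr.dX, hcr.dX1, hcr.dY, hcr.dY1]
  have key := HM m hm (p := p) (n := n) X.s Rw b (Y * (m : ℝ) ^ (-(1 / 2 : ℝ))) (1 / 2)
    (m2 ^ 2 + (tC * k) ^ 2) (tf X) ηX ηX1 ηY ηY1 (fun t => aX t * cf t) (fun t => aY t * cf t) hG (by positivity)
    hm2 (by positivity) le_rfl ?_ ?_ ?_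
  · simp only [hWt] at key
    refine key.trans (ENNReal.ofReal_le_ofReal (le_of_eq ?_))
    rw [← hY]
    have e1 : (m : ℝ) ^ (1 / 2 - 1 / 2 + (ε + e)) = (m : ℝ) ^ (ε + e) := by norm_num
    have e2 : (m : ℝ) ^ (-(1 / 2 : ℝ) + (ε + e)) = (m : ℝ) ^ (-(1 / 2 : ℝ)) * (m : ℝ) ^ (ε + e) :=
      Real.rpow_add hmp _ _
    rw [e1, e2]
    ring
  · simp only [hWt]
    refine (i1 hgr (gLa h (Xf e m)) (-(h * gM h (Xf e m)))).trans (ENNReal.ofReal_le_ofReal ?_)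
    rw [← hY, mul_assoc, hmm, mul_one]
  · simp only [hWt]
    refine i2.trans (ENNReal.ofReal_le_ofReal ?_)
    have h1 : Real.exp (-(q - g) * (Rw - T0)) ≤ (m : ℝ) ^ (-(1 / 2 : ℝ)) := by
      rw [Real.rpow_def_of_pos hmp]
      refine Real.exp_le_exp.2 ?_
      nlinarith
    rw [hY]
    calc (p.factorial : ℝ) * n.factorial * Real.exp (E1 + 176 * c1 * (Rw + N) * m2 ^ 2) *
          (Real.exp (-(q - g) * (Rw - T0)) * shF D q g T0)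
        ≤ (p.factorial : ℝ) * n.factorial * Real.exp (E1 + 176 * c1 * (Rw + N) * m2 ^ 2) *
          ((m : ℝ) ^ (-(1 / 2 : ℝ)) * (1 + shF D q g T0)) := by
          gcongr
          linarith
      _ = _ := by ring
  · have h3 : SqW2 (p := p) (n := n) (fun x => ENNReal.ofReal (W0 X p n aX aY cf x)) Rw (X.ρ true)
        (X.ρ false)
        (ENNReal.ofReal ((p.factorial : ℝ) * n.factorial * Real.exp E1 * (1 + shF D q g T0)))
        (1 / (8 * (C₁ * (Rw + 1)))) (m2 ^ 2 + (tC * k) ^ 2) := i3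
    have h4 := h3.mono (g' := Wt (p := p) (n := n) ηX ηX1 ηY ηY1 (fun t => aX t * cf t)
      (fun t => aY t * cf t)) (fun x _ => le_of_eq (hWt x))
      (B' := ENNReal.ofReal (Y * (m : ℝ) ^ (-(1 / 2 : ℝ)) * (m : ℝ) ^ (1 / 2 : ℝ) * Real.exp 0))
      (ENNReal.ofReal_le_ofReal (by
        rw [mul_assoc Y, hmm, mul_one, Real.exp_zero, mul_one, hY]
        have h5 : Real.exp E1 ≤ Real.exp (E1 + 176 * c1 * (Rw + N) * m2 ^ 2) := by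
          refine Real.exp_le_exp.2 ?_
          have : 0 ≤ 176 * c1 * (Rw + N) * m2 ^ 2 := by positivity
          linarith
        gcongr))
    exact h4.monoC le_rfl (by linarith)

end

end NUS4C.PLX
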