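import Pool.Agent.PLX.Ns
import Pool.Agent.NUSp.Tot

/-!
# The potential of the ends and of the groups grows at most linearly (`norm_DD`)
-/

set_option autoImplicit false
set_option linter.unusedSectionVars false

open MeasureTheory Set Filter Topology

namespace NUS4C.PLX

open NUO NUSp

noncomputable section

/-- **size of the potential of the ends and of the groups**: ends at height `0`, groups at heights at
most `X` -/
theorem norm_DD {δ b X : ℝ} (hb0 : 0 < b) (hb : b < δ * NUMF.l) {p q : ℂ} (hp : Away δ p)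
    (hq : Away δ q) (hp0 : p.im = 0) (hq0 : q.im = 0) {L : List Grp}
    (hL : ∀ G ∈ L, gn G ≤ 15 ∧ ∃ τ, |τ| ≤ X ∧ G.Ok δ τ) (hX : 0 ≤ X) (s : Bool) {z : ℂ}
    (hz : |z.im| < b) : ‖DD p q L s z‖ ≤ |kb δ b| * (2 + 15 * L.length) * (1 + |z.re| + X) := by
  have h1 := (potB_th hb0 hb hp hq (by rw [hp0, hq0])).val z hz
  rw [hp0, sub_zero] at h1
  have hk := abs_nonneg (kb δ b)
  have hz0 := abs_nonneg z.re
  have h1' : ‖th p q z‖ ≤ |kb δ b| * 2 * (1 + |z.re| + X) := by
    calc ‖th p q z‖ ≤ 2 * kb δ b * (1 + |z.re|) := h1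
      _ ≤ |kb δ b| * 2 * (1 + |z.re|) := by
          have := le_abs_self (kb δ b)
          refine mul_le_mul_of_nonneg_right (by linarith) (by positivity)
      _ ≤ _ := by
          refine mul_le_mul_of_nonneg_left (by linarith) (by positivity)
  have h2 : ∀ L : List Grp, (∀ G ∈ L, gn G ≤ 15 ∧ ∃ τ, |τ| ≤ X ∧ G.Ok δ τ) →
      ‖(L.map fun G => gp s G z).sum‖ ≤ |kb δ b| * (15 * L.length) * (1 + |z.re| + X) := by
    intro L hL
    induction L with
    | nil => simp
    | cons a L ih =>
      obtain ⟨hg, τ, hτ, ha⟩ := hL a (by simp)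
      have h3 := (potB_gp hb0 hb s ha).val z hz
      have h4 := ih fun x hx => hL x (by simp [hx])
      have h5 : |z.re - τ| ≤ |z.re| + X := (abs_sub _ _).trans (by linarith)
      have h6 : ‖gp s a z‖ ≤ |kb δ b| * 15 * (1 + |z.re| + X) := by
        calc ‖gp s a z‖ ≤ gn a * kb δ b * (1 + |z.re - τ|) := h3
          _ ≤ 15 * |kb δ b| * (1 + |z.re - τ|) := by
              have h7 := gn_nonneg a
              have h8 : gn a * kb δ b ≤ 15 * |kb δ b| := by
                calc gn a * kb δ b ≤ gn a * |kb δ b| := mul_le_mul_of_nonneg_left (le_abs_self _) h7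
                  _ ≤ _ := mul_le_mul_of_nonneg_right hg hk
              exact mul_le_mul_of_nonneg_right h8 (by positivity)
          _ ≤ 15 * |kb δ b| * (1 + |z.re| + X) := by
              refine mul_le_mul_of_nonneg_left (by linarith) (by positivity)
          _ = _ := by ring
      rw [List.map_cons, List.sum_cons, List.length_cons]
      refine (norm_add_le _ _).trans ((add_le_add h6 h4).trans (le_of_eq ?_))
      push_cast
      ring
  unfold DD
  refine (norm_add_le _ _).trans ((add_le_add h1' (h2 L hL)).trans (le_of_eq ?_))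
  ring

end

end NUS4C.PLX
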