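import Pool.Agent.PLX.Ns
import Pool.Agent.NUS4.PhLog
import Pool.Agent.NURow.Pcut
import Pool.Agent.PLX.NUGC.DefC

/-!
# The cutoff factor of the pairs of rows as an analytic potential in the bulk

`lphP ep M z = log (phP M β (l + i z))`, `β = (4/3) (1 - ep)`: for `m ≤ 5 M`, `m` large,
`|re z| ≤ (1 - e) (3/8) log m + 5` and `|im z| ≤ ep / 2` it is analytic and tiny.
-/

set_option autoImplicit false

open MeasureTheory Set Filter Topology

namespace NUS4C.PLX

open NUP1 NURow NUGC NUGC.PLX
open NUS4 (R1f uz uz_re uz_im uz_curve)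

noncomputable section

end

end NUS4C.PLX
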