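import Pool.Agent.PLX.Ns
import Pool.Agent.PLX.NUS4C.Sharp
import Pool.Agent.PLX.NUS4C.PhLog
import Pool.Agent.NUS4.GDO

/-!
# The data `GD` of the sharp bound for a general sea, cutoff of pairs of rows

* `cur_gen`: `h / (s P)` is an admissible displacement for `h` with polylogarithmic derivatives and
  support `(1 - e1) T`;
* `gd_conf`: the one body factors of a configuration of at most `log m` objects at heights at most
  `(log m)²`, with extra analytic potentials `A` and real rests `Er`, satisfy `NUS4C.GD`.
-/

set_option autoImplicit false
set_option linter.unusedSectionVars false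

open MeasureTheory Set Filter Topology

namespace NUS4C.PLX

open NUE NUOC NUKer NUR2 NUDi NUO NUGC NUGC.PLX
open NUS4 (R1f uz uz_re uz_im uz_curve)

noncomputable section

variable [NUSea.Sea]

end

end NUS4C.PLX
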