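import Pool.Agent.PLX.Ns
import Pool.Agent.NUBR.Z1B
import Pool.Agent.NUS4.GDO
import Pool.Agent.NUSea.Inst
import Pool.Agent.PLX.NUGC.DefC

/-!
# The row factor of TARGET-C on the curve

`Rrow_line`: `Rrow κ (l + i z) = 2 cos l · exp (2 κ Re vc z)` for `|Im z| < l / 2`, with the field
`vc` of the sea `seaH` of the rows at `± l / 2`; `Rrow_pA`: the same on the curve.
-/

set_option autoImplicit false

noncomputable section

open Complex

namespace NUS4C.PLX

open NUGC NUGC.PLX

/-- one row at `x` -/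
theorem rwN_line (x : ℝ) {z : ℂ} (hz : |(z + x * I).im| < NUMF.l) :
    rwN x (NUP1.l + I * z) = Real.exp (NUAct.vc (z + x * I)).re := by
  have h := NUBR.RNr_line 1 (z := z + x * I) hz
  have e0 : (NUP1.l : ℂ) + I * (z + x * I) = NUP1.l + I * z - x := by
    linear_combination (x : ℂ) * Complex.I_mul_I
  rw [e0, one_mul, NUS4.re_vc hz] at h
  have hc : 0 < Real.cos NUP1.l := by
    refine Real.cos_pos_of_mem_Ioo ⟨?_, ?_⟩ <;> unfold NUP1.l <;> linarith [Real.pi_pos]
  unfold NUCR.RNr at h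
  rw [Real.rpow_one] at h
  exact mul_left_cancel₀ (by positivity : 2 * Real.cos NUP1.l ≠ 0) h

end NUS4C.PLX

end
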